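import Pool.Agent.H174.GM.Stmts2

/-! Project GM (helper174), part MSYM: symmetrisation of the Magog residue (helper415). -/

set_option autoImplicit false

namespace Pool.Agent.H415.GM174

open Finset
open Pool.Agent.H174.GM

/-- the sign of a sign change changes with one sign -/
theorem sg_update {k : ℕ} (ε : Fin k → Bool) (j : Fin k) :
    sg (Function.update ε j (!ε j)) = - sg ε := by
  unfold sg
  rw [← Finset.mul_prod_erase univ _ (mem_univ j),
    ← Finset.mul_prod_erase univ (fun i => if ε i = true then (-1 : ℤ) else 1) (mem_univ j)]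
  have h1 : ∏ x ∈ univ.erase j, (if Function.update ε j (!ε j) x = true then (-1 : ℤ) else 1) =
      ∏ x ∈ univ.erase j, (if ε x = true then (-1 : ℤ) else 1) := by
    refine Finset.prod_congr rfl fun x hx => ?_
    rw [Function.update_of_ne (Finset.ne_of_mem_erase hx)]
  rw [h1, Function.update_self]
  cases ε j <;> simp

theorem sg_sq {k : ℕ} (ε : Fin k → Bool) : sg ε * sg ε = 1 := by
  unfold sg
  rw [← Finset.prod_mul_distrib]
  refine Finset.prod_eq_one fun i _ => ?_
  cases ε i <;> simp

theorem msym (h1 : S_DM) (h2 : S_EH3) : Pool.Agent.H174.GM.S_MSYM := by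
  intro k n hkn
  obtain ⟨r, hr⟩ : ∃ r : E k →+ ℚ, ∀ f, r f = res f :=
    ⟨AddMonoidHom.mk' res (h2 k).1, fun f => rfl⟩
  obtain ⟨R, hRd⟩ : ∃ R : (Fin k → Bool) → ℚ, ∀ ε, R ε = res (db (xx (k := k)) *
      gg (flp ε (xx (k := k))) / (∏ i, uu (xx (k := k) i)) ^ (n + k)) := ⟨_, fun ε => rfl⟩
  have hR : ∀ (ε : Fin k → Bool) (j : Fin k), R ε = - R (Function.update ε j (!ε j)) := by
    intro ε j
    rw [hRd, hRd]
    exact h1 k n hkn ε j
  have hinv : ∀ (ε : Fin k → Bool) (j : Fin k),
      (sg (Function.update ε j (!ε j)) : ℚ) * R (Function.update ε j (!ε j)) =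
        (sg ε : ℚ) * R ε := by
    intro ε j
    rw [sg_update, hR ε j]
    push_cast
    ring
  have hs : ∀ s : Finset (Fin k), (sg (fun i => decide (i ∈ s)) : ℚ) *
      R (fun i => decide (i ∈ s)) = R (fun _ => false) := by
    intro s
    induction s using Finset.induction_on with
    | empty => simp [sg]
    | insert j s hj ih =>
      have e : (fun i => decide (i ∈ insert j s)) =
          Function.update (fun i => decide (i ∈ s)) j (!decide (j ∈ s)) := by
        funext i
        by_cases hi : i = j
        · subst hi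
          simp [hj]
        · rw [Function.update_of_ne hi]
          simp [hi]
      rw [← ih, e]
      exact hinv (fun i => decide (i ∈ s)) j
  have hε : ∀ ε : Fin k → Bool, (sg ε : ℚ) * R ε = R (fun _ => false) := by
    intro ε
    have e : (fun i => decide (i ∈ univ.filter fun i => ε i = true)) = ε := by
      funext i
      simp
    have h3 := hs (univ.filter fun i => ε i = true)
    rwa [e] at h3
  have h0 : R (fun _ => false) = res (db (xx (k := k)) * gg (xx (k := k)) /
      (∏ i, uu (xx (k := k) i)) ^ (n + k)) := by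
    rw [hRd]
    have e : flp (fun _ => false) (xx (k := k)) = xx := by
      funext i
      simp [flp]
    rw [e]
  have hsum : res (db (xx (k := k)) * ee (xx (k := k)) /
      (∏ i, uu (xx (k := k) i)) ^ (n + k)) = ∑ ε : Fin k → Bool, (sg ε : ℚ) * R ε := by
    rw [← hr, ee, Finset.mul_sum, Finset.sum_div, map_sum]
    refine Finset.sum_congr rfl fun ε _ => ?_
    rw [mul_smul_comm, smul_div_assoc, map_zsmul, hr, hRd, zsmul_eq_mul]
  rw [hsum, Finset.sum_congr rfl fun ε _ => hε ε, Finset.sum_const, h0, nsmul_eq_mul]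
  simp

end Pool.Agent.H415.GM174
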